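import Mathlib
import Pool.Agent.Helper242.RM.Fin2
import Pool.Agent.Y858.RM.Gap

/-!
# Ruelle–Mayer operators: the ratio of consecutive eigenvalues

For every `s > 1` the eigenvalues of `G_s` are simple and
`-2/3 ≤ λ_{j+1}(s) / λ_j(s) < 0` for every `j ≥ 1`.

This is a quantitative form, uniform in `s` and `j`, of the results `SignsAlternate` and
`AllUnique` (the definitions are the same). The proof: in the Hilbert space of `L²` type attached
to `G_s` one has `S = θ^s q₀ ⊗ q₀ - θ² T S T*` with `‖T‖² ≤ 87/50`, `θ = (√5 - 1)/2`; hence on the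
span of the eigenvectors with eigenvalue `≤ -m` the form of `S` at `T* g` is at least
`m / (θ² ‖T‖²) ‖T* g‖²`, so that there are at least as many eigenvalues `≥ m / (θ² ‖T‖²)`; the same
holds, up to one, for the opposite signs.
-/

set_option autoImplicit false

namespace Pool.Agent.Results.MP_d977c2_an.GeometricGap

open Module Module.End

/-- The closed disc `|z - 1| ≤ 3/2`, the closure of `Δ`. -/
abbrev Disc : Set ℂ := Metric.closedBall (1 : ℂ) (3 / 2)

open Classical in
/-- Extension by zero to `ℂ` of a function on the closed disc. -/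
noncomputable def ext (f : C(Disc, ℂ)) : ℂ → ℂ := fun z => if h : z ∈ Disc then f ⟨z, h⟩ else 0

/-- The function `f` on the closed disc is holomorphic in the open disc `Δ`. -/
def IsHolo (f : C(Disc, ℂ)) : Prop := DifferentiableOn ℂ (ext f) (Metric.ball (1 : ℂ) (3 / 2))

lemma ext_add (f g : C(Disc, ℂ)) : ext (f + g) = ext f + ext g := by
  funext z
  by_cases h : z ∈ Disc <;> simp [ext, h]

lemma ext_zero : ext (0 : C(Disc, ℂ)) = fun _ => 0 := by
  funext z
  by_cases h : z ∈ Disc <;> simp [ext, h]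

lemma ext_smul (c : ℂ) (f : C(Disc, ℂ)) : ext (c • f) = c • ext f := by
  funext z
  by_cases h : z ∈ Disc <;> simp [ext, h]

lemma isHolo_add {f g : C(Disc, ℂ)} (hf : IsHolo f) (hg : IsHolo g) : IsHolo (f + g) := by
  unfold IsHolo
  rw [ext_add]
  exact hf.add hg

lemma isHolo_zero : IsHolo 0 := by
  unfold IsHolo
  rw [ext_zero]
  exact differentiableOn_const 0

lemma isHolo_smul (c : ℂ) {f : C(Disc, ℂ)} (hf : IsHolo f) : IsHolo (c • f) := by
  unfold IsHolo
  rw [ext_smul]
  exact hf.const_smul c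

/-- The continuous functions on the closed disc which are holomorphic in the open disc `Δ` form a
linear subspace of the continuous functions. -/
noncomputable def XSub : Submodule ℂ C(Disc, ℂ) where
  carrier := {f | IsHolo f}
  add_mem' := isHolo_add
  zero_mem' := isHolo_zero
  smul_mem' := isHolo_smul

/-- The space `X` of the problem: the continuous functions on the closed disc which are holomorphic
in the open disc `Δ`. -/
def X : Type := {f : C(Disc, ℂ) // IsHolo f}

/-- The linear structure of `X` is the pointwise one. -/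
noncomputable instance instAddCommGroupX : AddCommGroup X := Submodule.addCommGroup XSub

/-- The linear structure of `X` is the pointwise one. -/
noncomputable instance instModuleX : Module ℂ X := Submodule.module XSub

/-- The value `(G_s f)(z) = ∑_{n ≥ 1} (z+n)^{-s} f(1/(z+n))` (the index is shifted by one; the
power is the principal one, and `1/(z+n)` lies in the disc for every `z` in the disc). -/
noncomputable def Gval (s : ℝ) (f : C(Disc, ℂ)) (z : ℂ) : ℂ :=
  ∑' n : ℕ, (z + ((n : ℂ) + 1)) ^ (-(s : ℂ)) * ext f (z + ((n : ℂ) + 1))⁻¹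

/-- Sanity: the points at which `f` is evaluated lie in the disc, and the series converges. -/
lemma sanity (s : ℝ) (hs : 1 < s) (f : C(Disc, ℂ)) (z : ℂ) (hz : z ∈ Disc) :
    (∀ n : ℕ, (z + ((n : ℂ) + 1))⁻¹ ∈ Disc) ∧
    Summable (fun n : ℕ => (z + ((n : ℂ) + 1)) ^ (-(s : ℂ)) * ext f (z + ((n : ℂ) + 1))⁻¹) :=
  ⟨Pool.Agent.Helper242.RM.gv_inv_mem z hz, Pool.Agent.Helper242.RM.gv_term_summable s hs f z hz⟩

lemma continuous_Gval (s : ℝ) (hs : 1 < s) (f : X) :
    Continuous (fun z : Disc => Gval s f.1 z) :=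
  Pool.Agent.Helper242.RM.Gval_continuous s hs f

/-- The function `G_s f` on the closed disc. -/
noncomputable def GC (s : ℝ) (hs : 1 < s) (f : X) : C(Disc, ℂ) :=
  ⟨fun z : Disc => Gval s f.1 z, continuous_Gval s hs f⟩

lemma isHolo_GC (s : ℝ) (hs : 1 < s) (f : X) : IsHolo (GC s hs f) :=
  (Pool.Agent.Helper242.RM.G s hs f).2

/-- The operator `G_s : X → X` as a map. -/
noncomputable def Gfun (s : ℝ) (hs : 1 < s) (f : X) : X := ⟨GC s hs f, isHolo_GC s hs f⟩

lemma Gfun_add (s : ℝ) (hs : 1 < s) (f g : X) : Gfun s hs (f + g) = Gfun s hs f + Gfun s hs g :=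
  (Pool.Agent.Helper242.RM.G s hs).map_add f g

lemma Gfun_smul (s : ℝ) (hs : 1 < s) (c : ℂ) (f : X) : Gfun s hs (c • f) = c • Gfun s hs f :=
  (Pool.Agent.Helper242.RM.G s hs).map_smul c f

/-- The operator `G_s : X → X`, `s > 1`, as a linear map. -/
noncomputable def G (s : ℝ) (hs : 1 < s) : Module.End ℂ X where
  toFun := Gfun s hs
  map_add' := Gfun_add s hs
  map_smul' := Gfun_smul s hs

/-- Sanity: `(G_s f)(z) = ∑_{n ≥ 1} (z+n)^{-s} f(1/(z+n))` for `z` in the closed disc. -/
lemma G_apply (s : ℝ) (hs : 1 < s) (f : X) (z : Disc) :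
    (G s hs f).1 z = ∑' n : ℕ, ((z : ℂ) + ((n : ℂ) + 1)) ^ (-(s : ℂ)) *
      f.1 ⟨((z : ℂ) + ((n : ℂ) + 1))⁻¹, (sanity s hs f.1 z z.2).1 n⟩ := by
  change Gval s f.1 z = _
  unfold Gval
  refine tsum_congr fun n => ?_
  rw [ext, dif_pos]

/-- `μ` is an eigenvalue of `G_s : X → X`. -/
def IsEigenvalue (s : ℝ) (hs : 1 < s) (μ : ℂ) : Prop := HasEigenvalue (G s hs) μ

/-- The algebraic multiplicity of `μ` as an eigenvalue of `G_s`: the dimension of the generalised
eigenspace. -/
noncomputable def algMult (s : ℝ) (hs : 1 < s) (μ : ℂ) : ℕ := finrank ℂ (maxGenEigenspace (G s hs) μ)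

/-- The list `λ_1(s), λ_2(s), …` of the problem: `lam 1, lam 2, lam 3, …` lists the nonzero
eigenvalues of `G_s : X → X`, each repeated according to its algebraic multiplicity, by
nonincreasing modulus. -/
structure IsEigenvalueList (s : ℝ) (hs : 1 < s) (lam : ℕ+ → ℂ) : Prop where
  /-- the entries are nonzero -/
  ne_zero : ∀ j, lam j ≠ 0
  /-- the entries are eigenvalues -/
  isEigenvalue : ∀ j, IsEigenvalue s hs (lam j)
  /-- each nonzero value occurs finitely often -/
  finite : ∀ μ : ℂ, μ ≠ 0 → {j | lam j = μ}.Finite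
  /-- each nonzero eigenvalue occurs as often as its algebraic multiplicity -/
  card : ∀ μ : ℂ, μ ≠ 0 → IsEigenvalue s hs μ → {j | lam j = μ}.ncard = algMult s hs μ
  /-- the moduli are nonincreasing -/
  antitone : ∀ i j, i ≤ j → ‖lam j‖ ≤ ‖lam i‖

lemma isEigenvalueList_iff (s : ℝ) (hs : 1 < s) (lam : ℕ+ → ℂ) :
    IsEigenvalueList s hs lam ↔ Pool.Agent.Helper242.RM.IsEigenvalueList s hs lam :=
  ⟨fun h => ⟨h.1, h.2, h.3, h.4, h.5⟩, fun h => ⟨h.1, h.2, h.3, h.4, h.5⟩⟩

/-- The eigenvalue `μ` of `G_s` is unique: its algebraic multiplicity is one and no other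
eigenvalue has the same absolute value. -/
def IsUniqueEigenvalue (s : ℝ) (hs : 1 < s) (μ : ℂ) : Prop :=
  algMult s hs μ = 1 ∧ ∀ ν : ℂ, IsEigenvalue s hs ν → ‖ν‖ = ‖μ‖ → ν = μ

/-- For every `s > 1` the list `λ_1(s), λ_2(s), …` of the nonzero eigenvalues of `G_s` exists (and
is infinite), it contains every nonzero eigenvalue, `λ_1(s) > 0`, and for every `j ≥ 1` the
eigenvalue `λ_j(s)` is unique and `λ_{j+1}(s) = -ρ λ_j(s)` with `0 < ρ ≤ 2/3`. -/
theorem result :
    ∀ (s : ℝ) (hs : 1 < s),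
      (∃ lam : ℕ+ → ℂ, IsEigenvalueList s hs lam) ∧
      ∀ lam : ℕ+ → ℂ, IsEigenvalueList s hs lam →
        (∀ ν : ℂ, ν ≠ 0 → IsEigenvalue s hs ν → ∃ j, lam j = ν) ∧
        (∃ x : ℝ, 0 < x ∧ lam 1 = (x : ℂ)) ∧
        ∀ j : ℕ+, IsUniqueEigenvalue s hs (lam j) ∧
          ∃ ρ : ℝ, 0 < ρ ∧ ρ ≤ 2 / 3 ∧ lam (j + 1) = -(ρ : ℂ) * lam j := by
  refine fun s hs => ⟨?_, fun lam h => ?_⟩
  · obtain ⟨lam, h⟩ := Pool.Agent.Helper242.RM.exists_list s hs
    exact ⟨lam, (isEigenvalueList_iff s hs lam).2 h⟩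
  · have h' := (isEigenvalueList_iff s hs lam).1 h
    obtain ⟨h1, h2, h3⟩ := Pool.Agent.Y858.RM.list_gap s hs lam h'
    exact ⟨h2, h1, fun j =>
      ⟨Pool.Agent.Helper242.RM.list_isUnique s hs lam h' j, h3 j⟩⟩

end Pool.Agent.Results.MP_d977c2_an.GeometricGap
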